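import Pool.Agent.H69.Sl2

namespace Pool.Agent.Results.MP_0b7c94_al.NoSimple

theorem result : ∃ (G : Type) (_ : Group G), Infinite G ∧ IsSimpleGroup G ∧
    (∀ H : Subgroup G, H.FG → Finite H) ∧
    (∀ H : Subgroup G, Finite H → IsSimpleGroup H → IsCyclic H ∧ (Nat.card H).Prime) ∧
    ¬∃ H : ℕ → Subgroup G, StrictMono H ∧
      ∀ n, Finite (H n) ∧ IsSimpleGroup (H n) ∧ ∃ a b : H n, a * b ≠ b * a := by
  obtain ⟨G, _, h1, h2, h3, h4⟩ := Pool.Agent.H69.Sl.main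
  refine ⟨G, inferInstance, h1, h2, fun H ⟨s, hs⟩ => hs ▸ h3 s s.finite_toSet, fun H f s => ?_, ?_⟩
  · letI : CommGroup H := { (inferInstance : Group H) with mul_comm := h4 H f s }
    exact ⟨IsSimpleGroup.isCyclic, IsSimpleGroup.prime_card⟩
  · rintro ⟨H, -, h⟩
    obtain ⟨f, s, a, b, e⟩ := h 0
    exact e (h4 _ f s a b)

end Pool.Agent.Results.MP_0b7c94_al.NoSimple
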